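import Pool.Agent.Q143.TR.Sign

/-!
# Groups acting on trees with a homomorphism that is injective on the edge stabilizers

`Closed C` (`Pool.Agent.Y462.SS.Base`): the class `C` of groups contains `ℤ` and is closed under
groups that embed, finite products, free products, overgroups of finite index and colimits of directed
systems.  `ExtClosed C` (`Pool.Agent.Q152.WP.Perm`): if `G` maps onto a group `Q` of `C`, and the
kernel and the preimages of all infinite cyclic subgroups of `Q` are in `C`, then `G` is in `C`.  These
properties are known for the class of the groups which satisfy the `K`- and `L`-theoretic
Farrell–Jones conjecture with coefficients in additive categories and finite wreath products.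

Proof.  Let `f : Γ → Q` be injective on the edge stabilizers, and `B` the set of the pairs of vertices
modulo the kernel of `f`, on which `Q` acts.  Over every vertex `x` of the tree we put a copy of the set
`ℕ ⊔ B × ℕ`.  The group `Γ` acts on these copies, with labels in the direct sum of the vertex
stabilizers: an element `g` of the stabilizer of `x` fixes the point `0` of the copy over `x`, with the
label `g`; it permutes the rays `{b} × ℕ` through `f(g)`, and their labels are given by `f(g)`, because `f`
is injective on the edge stabilizers.  An edge from `x` to `y` identifies the copies over `x` and `y` by
shifts along the rays of the edge.  In a tree all copies are identified with each other, and `Γ`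
acts on the set `ℕ ⊔ B × ℕ` with labels.  This gives a homomorphism from `Γ` to an unrestricted wreath
product which is injective on the vertex stabilizers.  Its image is in the class, because the elements
which are trivial in a semidirect product of `Q` and a free group have finite support.  The
kernel acts freely on the tree.
-/

set_option autoImplicit false

namespace Pool.Agent.Q143.Variants.EdgeInjective

open Pool.Agent.Y462.SS Pool.Agent.Q152.WP Pool.Agent.Q143.TR

/-- Let `C` be a class of groups with the closure properties `Closed C` and `ExtClosed C`, and let the
group `Γ` act on a tree by graph automorphisms (with or without inversions, with any number of orbits).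
Then `Γ` is in `C` if and only if the stabilizers of the vertices are in `C` and there is a homomorphism
from `Γ` to a group of `C` which is injective on the stabilizers of the edges. -/
theorem result (C : ∀ (G : Type) [Group G], Prop) (hC : Closed C) (hE : ExtClosed C)
    (V Γ : Type) [Group Γ] [MulAction Γ V] (T : SimpleGraph V) (hT : T.IsTree)
    (hadj : ∀ (γ : Γ) (x y : V), T.Adj x y → T.Adj (γ • x) (γ • y)) :
    C Γ ↔ (∀ v : V, C (MulAction.stabilizer Γ v)) ∧
      ∃ (Q : Type) (_ : Group Q) (f : Γ →* Q), C Q ∧
        ∀ (γ : Γ) (x y : V), T.Adj x y → γ • x = x → γ • y = y → f γ = 1 → γ = 1 := by
  constructor
  · intro h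
    exact ⟨fun v => of_sub hC _ h, Γ, inferInstance, MonoidHom.id Γ, h, fun _ _ _ _ _ _ h1 => h1⟩
  · rintro ⟨hv, Q, _, f, hQ, hf⟩
    exact tree_mem hT hadj hC hE hQ f hv hf

end Pool.Agent.Q143.Variants.EdgeInjective
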